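import Pool.Agent.Helper41.LD7.Defs

/-!
# Project LD7, block T_phase: the number of the steps in a phase
-/

set_option autoImplicit false

namespace Pool.Agent.Helper64.LD7

open Set MeasureTheory Filter Topology
open Pool.Agent.Helper41.LD (Kk)
open Pool.Agent.Helper41.LD3 (ll ll_succ ll_pos)
open Pool.Agent.Helper41.LD5 (fp pwf)
open Pool.Agent.Helper41.LD7

theorem fp_step64 {A₀ x : ℝ} {P : ℕ} (hA : 0 < A₀) (hx : 0 < x) (n k : ℕ) :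
    fp A₀ P n x * (x ^ (1 / (P : ℝ))) ^ k ≤ fp A₀ P (n + k) x := by
  unfold fp
  have h1 : (x ^ (1 / (P : ℝ))) ^ k = x ^ ((k : ℝ) / P) := by
    rw [← Real.rpow_mul_natCast hx.le]
    congr 1
    ring
  rw [h1, mul_assoc, ← Real.rpow_add hx]
  have h2 : (n : ℝ) / P - 1 + k / P = ((n + k : ℕ) : ℝ) / P - 1 := by
    push_cast
    ring
  rw [h2]
  refine mul_le_mul_of_nonneg_right ?_ (by positivity)
  refine mul_le_mul_of_nonneg_left ?_ hA.le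
  exact div_le_div_of_nonneg_right (by exact_mod_cast Nat.le_add_right n k) (by positivity)

theorem Tt_block64 {F : Pm} (hF : F.Ok) {Θ a ℓ : ℝ} (h1 : F.x₁ ≤ a) (hℓ : 0 < ℓ) (Λ : ℕ) :
    Tt F.A₀ F.P Θ a (ℓ / 2 ^ Λ) ≤ Tt F.A₀ F.P Θ a ℓ + F.X * Λ := by
  have hx1 : 0 < F.x₁ := one_pos.trans hF.h1
  have ha : 0 < a := hx1.trans_le h1
  have hy : 2 ≤ (a ^ (1 / (F.P : ℝ))) ^ F.X := by
    refine hF.hx1.trans (pow_le_pow_left₀ (by positivity) ?_ _)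
    exact Real.rpow_le_rpow hx1.le h1 (by positivity)
  have hnn : ∀ n : ℕ, 0 ≤ fp F.A₀ F.P n a := by
    intro n
    unfold fp
    have := hF.hA
    positivity
  by_cases hne : {n : ℕ | Θ ≤ fp F.A₀ F.P n a * ℓ}.Nonempty
  · have h2 : Θ ≤ fp F.A₀ F.P (Tt F.A₀ F.P Θ a ℓ) a * ℓ := Nat.sInf_mem hne
    refine Nat.sInf_le ?_
    change Θ ≤ fp F.A₀ F.P (Tt F.A₀ F.P Θ a ℓ + F.X * Λ) a * (ℓ / 2 ^ Λ)
    generalize Tt F.A₀ F.P Θ a ℓ = n at h2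
    have h3 := fp_step64 (P := F.P) hF.hA ha n (F.X * Λ)
    have h4 : (2 : ℝ) ^ Λ ≤ (a ^ (1 / (F.P : ℝ))) ^ (F.X * Λ) := by
      rw [pow_mul]
      exact pow_le_pow_left₀ (by norm_num) hy _
    have h5 : fp F.A₀ F.P n a * 2 ^ Λ ≤ fp F.A₀ F.P (n + F.X * Λ) a :=
      (mul_le_mul_of_nonneg_left h4 (hnn n)).trans h3
    have h6 : (0 : ℝ) < 2 ^ Λ := by positivity
    calc Θ ≤ fp F.A₀ F.P n a * ℓ := h2
      _ = fp F.A₀ F.P n a * 2 ^ Λ * (ℓ / 2 ^ Λ) := by field_simp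
      _ ≤ _ := mul_le_mul_of_nonneg_right h5 (by positivity)
  · have he : {n : ℕ | Θ ≤ fp F.A₀ F.P n a * (ℓ / 2 ^ Λ)} = ∅ := by
      rw [Set.eq_empty_iff_forall_notMem]
      intro n hn
      refine hne ⟨n, le_trans hn (mul_le_mul_of_nonneg_left ?_ (hnn n))⟩
      exact div_le_self hℓ.le (one_le_pow₀ (by norm_num))
    unfold Tt
    rw [he, Nat.sInf_empty]
    exact Nat.zero_le _

theorem T_phase {F : Pm} {K : ℕ} {a₀ ℓst : ℝ} (hF : F.Ok) (S : F.St K a₀ ℓst) {ℓ₀ : ℝ} (hℓ₀ : 0 < ℓ₀) (K₀ : ℕ) {σ k : ℕ} (hKK : K = K₀ + σ) (hst : ℓst = ll 1 K₀ ℓ₀ (2 ^ σ - 1))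
    (h1 : 2 ^ σ - 1 ≤ k) (h2 : k ≤ 2 ^ (σ + 1) - 1) : F.T K a₀ ℓst (ll 1 K₀ ℓ₀ k) ≤ 2 ^ K * (F.X * K ^ 3) := by
  have key : ∀ i : ℕ, i ≤ 2 ^ σ → Tt F.A₀ F.P (F.Th K) a₀ (ll 1 K₀ ℓ₀ (2 ^ σ - 1 + i)) ≤ F.n₀ K a₀ ℓst + i * (F.X * K ^ 3) := by
    intro i
    induction i with
    | zero =>
      intro _
      rw [Nat.add_zero, ← hst]
      exact Nat.le_add_right _ _
    | succ i ih =>
      intro hi
      have h3 := ih (by omega)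
      have hKk : Kk K₀ (2 ^ σ - 1 + i) = K := by
        unfold Kk
        have h4 : 1 ≤ 2 ^ σ := Nat.one_le_two_pow
        have h5 : Nat.log 2 (2 ^ σ - 1 + i + 1) = σ := by
          rw [Nat.log_eq_iff (Or.inr ⟨by norm_num, by omega⟩)]
          rw [pow_succ]
          omega
        rw [h5, hKK]
      have h6 : ll 1 K₀ ℓ₀ (2 ^ σ - 1 + (i + 1)) = ll 1 K₀ ℓ₀ (2 ^ σ - 1 + i) / 2 ^ (K ^ 3) := by
        rw [← hKk]
        unfold ll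
        rw [← Nat.add_assoc, Finset.sum_range_succ, pow_add, div_div]
      rw [h6]
      have h7 := Tt_block64 hF (Θ := F.Th K) S.lo (ll_pos hℓ₀ (κ := 1) (K₀ := K₀) (2 ^ σ - 1 + i)) (K ^ 3)
      calc _ ≤ _ := h7
        _ ≤ F.n₀ K a₀ ℓst + i * (F.X * K ^ 3) + F.X * K ^ 3 := Nat.add_le_add_right h3 _
        _ = _ := by ring
  have h3 := key (k - (2 ^ σ - 1)) (by
    rw [pow_succ] at h2
    omega)
  have h4 : 2 ^ σ - 1 + (k - (2 ^ σ - 1)) = k := by omega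
  rw [h4] at h3
  have h5 : k - (2 ^ σ - 1) ≤ 2 ^ K := by
    have h6 : 2 ^ σ ≤ 2 ^ K := Nat.pow_le_pow_right (by norm_num) (by omega)
    rw [pow_succ] at h2
    omega
  have h6 : (k - (2 ^ σ - 1)) * (F.X * K ^ 3) ≤ 2 ^ K * (F.X * K ^ 3) := Nat.mul_le_mul_right _ h5
  unfold Pm.T
  omega

end Pool.Agent.Helper64.LD7
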